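import Pool.Agent.Helper75.AP.Basic

set_option autoImplicit false

namespace Pool.Agent.Helper61.Apc

theorem dim_real : Dim (fun x y : ℝ => |x - y|) 2 := by
  intro r
  set L : ℝ := max r 1 + 1 with hL
  have hL1 : r < L := lt_of_le_of_lt (le_max_left r 1) (by linarith)
  have hL0 : 0 < L := by
    have := le_max_right r 1
    linarith
  refine ⟨L, fun i => {x | ⌊x / L⌋ % 2 = (i : ℤ)}, ?_, ?_⟩
  · intro x
    rcases Int.emod_two_eq_zero_or_one ⌊x / L⌋ with h | h
    · exact ⟨0, h⟩
    · exact ⟨1, h⟩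
  · intro i x hx y hxy
    have key : y ∈ {x : ℝ | ⌊x / L⌋ % 2 = (i : ℤ)} ∧ ⌊x / L⌋ = ⌊y / L⌋ := by
      induction hxy with
      | refl => exact ⟨hx, rfl⟩
      | tail _ hbc ih =>
        rename_i b c _
        obtain ⟨hb, hxb⟩ := ih
        obtain ⟨hc, hbc⟩ := hbc
        refine ⟨hc, hxb.trans ?_⟩
        have h1 : |b / L - c / L| < 1 := by
          rw [← sub_div, abs_div, abs_of_pos hL0, div_lt_one hL0]
          exact lt_of_le_of_lt hbc hL1
        rw [abs_lt] at h1
        have h2 := Int.floor_le (b / L)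
        have h3 := Int.lt_floor_add_one (b / L)
        have h4 := Int.floor_le (c / L)
        have h5 := Int.lt_floor_add_one (c / L)
        have h6 : ⌊b / L⌋ < ⌊c / L⌋ + 2 := by
          have : (⌊b / L⌋ : ℝ) < ⌊c / L⌋ + 2 := by linarith [h1.2]
          exact_mod_cast this
        have h7 : ⌊c / L⌋ < ⌊b / L⌋ + 2 := by
          have : (⌊c / L⌋ : ℝ) < ⌊b / L⌋ + 2 := by linarith [h1.1]
          exact_mod_cast this
        have hb' : ⌊b / L⌋ % 2 = (i : ℤ) := hb
        have hc' : ⌊c / L⌋ % 2 = (i : ℤ) := hc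
        omega
    have h1 := Int.abs_sub_lt_one_of_floor_eq_floor key.2
    rw [← sub_div, abs_div, abs_of_pos hL0, div_lt_one hL0] at h1
    exact h1.le

theorem dim_nonarch {K : Type*} [Field K] (v : AbsoluteValue K ℝ)
    (hv : ∀ x y, v (x + y) ≤ max (v x) (v y)) : Dim (fun x y : K => v (x - y)) 1 := by
  intro r
  refine ⟨max r 0, fun _ => Set.univ, fun x => ⟨0, Set.mem_univ x⟩, ?_⟩
  intro _ x _ y hxy
  show v (x - y) ≤ max r 0
  induction hxy with
  | refl => rw [sub_self, map_zero]; exact le_max_right _ _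
  | tail _ hbc ih =>
    rename_i b c _
    have h1 : x - c = (x - b) + (b - c) := by ring
    rw [h1]
    refine le_trans (hv _ _) (max_le ih ?_)
    exact le_trans hbc.2 (le_max_left _ _)

theorem dim_complex {K : Type*} [Field K] (v : AbsoluteValue K ℝ) (σ : K →+* ℂ)
    (hv : ∀ x, v x = ‖σ x‖) : Dim (fun x y : K => v (x - y)) 4 := by
  have h := dim_prod dim_real dim_real
  refine dim_comap (fun x => ((σ x).re, (σ x).im)) ?_ ?_ h
  · intro r
    refine ⟨r, fun a b hab => ?_⟩
    beta_reduce at hab ⊢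
    rw [hv, map_sub] at hab
    refine max_le ?_ ?_
    · rw [← Complex.sub_re]
      exact le_trans (Complex.abs_re_le_norm _) hab
    · rw [← Complex.sub_im]
      exact le_trans (Complex.abs_im_le_norm _) hab
  · intro D
    refine ⟨D + D, fun a b hab => ?_⟩
    beta_reduce at hab ⊢
    rw [hv, map_sub]
    refine le_trans (Complex.norm_le_abs_re_add_abs_im _) ?_
    rw [Complex.sub_re, Complex.sub_im]
    exact add_le_add (le_trans (le_max_left _ _) hab) (le_trans (le_max_right _ _) hab)

end Pool.Agent.Helper61.Apc
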