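import Pool.Agent.Helper61.Apc.Defs

set_option autoImplicit false

namespace Pool.Agent.Helper61.Apc

theorem ap1_map {α β : Type*} {r : α → α → Prop} {s : β → β → Prop} (f : α → β)
    (h : ∀ a b, r a b → s (f a) (f b)) {x y : α} (hxy : Relation.ReflTransGen r x y) :
    Relation.ReflTransGen s (f x) (f y) := by
  induction hxy with
  | refl => exact Relation.ReflTransGen.refl
  | tail _ hbc ih => exact ih.tail (h _ _ hbc)

theorem dim_mono {X : Type*} {δ : X → X → ℝ} {s t : ℕ} (h : Dim δ s) (hst : s ≤ t) : Dim δ t := by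
  intro r
  obtain ⟨D, A, h1, h2⟩ := h r
  refine ⟨D, fun i => if hi : (i : ℕ) < s then A ⟨i, hi⟩ else ∅, ?_, ?_⟩
  · intro x
    obtain ⟨i, hi⟩ := h1 x
    refine ⟨⟨i, lt_of_lt_of_le i.2 hst⟩, ?_⟩
    simp only [Fin.is_lt, dif_pos]
    exact hi
  · intro i
    by_cases hi : (i : ℕ) < s
    · simp only [dif_pos hi]
      exact h2 _
    · simp only [dif_neg hi]
      intro x hx
      exact absurd hx (Set.notMem_empty x)

theorem dim_comap {X Y : Type*} {δX : X → X → ℝ} {δY : Y → Y → ℝ} {t : ℕ} (f : X → Y)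
    (h1 : ∀ r : ℝ, ∃ r' : ℝ, ∀ a b, δX a b ≤ r → δY (f a) (f b) ≤ r')
    (h2 : ∀ D : ℝ, ∃ D' : ℝ, ∀ a b, δY (f a) (f b) ≤ D → δX a b ≤ D')
    (hY : Dim δY t) : Dim δX t := by
  intro r
  obtain ⟨r', hr'⟩ := h1 r
  obtain ⟨D, A, h3, h4⟩ := hY r'
  obtain ⟨D', hD'⟩ := h2 D
  refine ⟨D', fun i => f ⁻¹' A i, fun x => h3 (f x), fun i => ?_⟩
  intro x hx y hxy
  apply hD'
  refine h4 i (f x) hx (f y) (ap1_map f ?_ hxy)
  rintro a b ⟨hb, hab⟩
  exact ⟨hb, hr' a b hab⟩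

theorem dim_prod {X Y : Type*} {δX : X → X → ℝ} {δY : Y → Y → ℝ} {s t : ℕ}
    (hX : Dim δX s) (hY : Dim δY t) :
    Dim (fun p q : X × Y => max (δX p.1 q.1) (δY p.2 q.2)) (s * t) := by
  intro r
  obtain ⟨D₁, A, h1, h2⟩ := hX r
  obtain ⟨D₂, B, h3, h4⟩ := hY r
  refine ⟨max D₁ D₂, fun k => {p | p.1 ∈ A (finProdFinEquiv.symm k).1 ∧
    p.2 ∈ B (finProdFinEquiv.symm k).2}, ?_, ?_⟩
  · rintro ⟨x, y⟩
    obtain ⟨i, hi⟩ := h1 x
    obtain ⟨j, hj⟩ := h3 y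
    refine ⟨finProdFinEquiv (i, j), ?_⟩
    show x ∈ A (finProdFinEquiv.symm (finProdFinEquiv (i, j))).1 ∧
      y ∈ B (finProdFinEquiv.symm (finProdFinEquiv (i, j))).2
    rw [Equiv.symm_apply_apply]
    exact ⟨hi, hj⟩
  · intro k p hp q hpq
    refine max_le_max ?_ ?_
    · refine h2 _ p.1 hp.1 q.1 (ap1_map Prod.fst ?_ hpq)
      rintro a b ⟨hb, hab⟩
      exact ⟨hb.1, le_trans (le_max_left _ _) hab⟩
    · refine h4 _ p.2 hp.2 q.2 (ap1_map Prod.snd ?_ hpq)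
      rintro a b ⟨hb, hab⟩
      exact ⟨hb.2, le_trans (le_max_right _ _) hab⟩

theorem dim_pi {ι : Type*} [Fintype ι] {X : ι → Type*} {δ : ∀ i, X i → X i → ℝ}
    (hnn : ∀ i a b, 0 ≤ δ i a b) (h : ∀ i, ∃ t, Dim (δ i) t) :
    ∃ t, Dim (fun p q : ∀ i, X i => ∑ i, δ i (p i) (q i)) t := by
  classical
  choose t ht using h
  refine ⟨Fintype.card (∀ i, Fin (t i)), ?_⟩
  intro r
  choose D A h1 h2 using fun i => ht i r
  have e := (Fintype.equivFin (∀ i, Fin (t i))).symm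
  refine ⟨∑ i, D i, fun k => {p | ∀ i, p i ∈ A i (e k i)}, ?_, ?_⟩
  · intro p
    choose c hc using fun i => h1 i (p i)
    refine ⟨e.symm c, fun i => ?_⟩
    rw [Equiv.apply_symm_apply]
    exact hc i
  · intro k p hp q hpq
    refine Finset.sum_le_sum (fun i _ => ?_)
    refine h2 i _ (p i) (hp i) (q i) (ap1_map (fun p => p i) ?_ hpq)
    rintro a b ⟨hb, hab⟩
    exact ⟨hb i, le_trans (Finset.single_le_sum (f := fun i => δ i (a i) (b i))
      (fun j _ => hnn j _ _) (Finset.mem_univ i)) hab⟩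

end Pool.Agent.Helper61.Apc
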