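import Pool.Agent.Helper75.AP.Basic

set_option autoImplicit false

namespace Pool.Agent.Helper61.Apc

section
variable {n m K : Type*} [Fintype n] [DecidableEq n] [Fintype m] [DecidableEq m] [Field K]
  (v : AbsoluteValue K ℝ)

/-- the sum of the absolute values of the entries -/
noncomputable def ap4Sum (M : Matrix n n K) : ℝ := ∑ i, ∑ j, v (M i j)

theorem ap4_sum_nonneg (M : Matrix n n K) : 0 ≤ ap4Sum v M :=
  Finset.sum_nonneg (fun _ _ => Finset.sum_nonneg (fun _ _ => v.nonneg _))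

theorem ap4_sum_mul (M N : Matrix n n K) : ap4Sum v (M * N) ≤ ap4Sum v M * ap4Sum v N := by
  have h1 : ap4Sum v (M * N) ≤ ∑ i, ∑ j, ∑ k, v (M i k) * v (N k j) := by
    unfold ap4Sum
    refine Finset.sum_le_sum (fun i _ => Finset.sum_le_sum (fun j _ => ?_))
    rw [Matrix.mul_apply]
    refine le_trans (v.sum_le _ _) (Finset.sum_le_sum (fun k _ => ?_))
    rw [map_mul]
  have h2 : ∑ i, ∑ j, ∑ k, v (M i k) * v (N k j) =
      ∑ i, ∑ k, v (M i k) * ∑ j, v (N k j) := by
    refine Finset.sum_congr rfl (fun i _ => ?_)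
    rw [Finset.sum_comm]
    exact Finset.sum_congr rfl (fun k _ => by rw [Finset.mul_sum])
  have h3 : ∑ i, ∑ k, v (M i k) * ∑ j, v (N k j) ≤
      ∑ i, ∑ k, v (M i k) * ap4Sum v N := by
    refine Finset.sum_le_sum (fun i _ => Finset.sum_le_sum (fun k _ => ?_))
    refine mul_le_mul_of_nonneg_left ?_ (v.nonneg _)
    exact Finset.single_le_sum (f := fun k => ∑ j, v (N k j))
      (fun k _ => Finset.sum_nonneg (fun _ _ => v.nonneg _)) (Finset.mem_univ k)
  have h4 : ∑ i, ∑ k, v (M i k) * ap4Sum v N = ap4Sum v M * ap4Sum v N := by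
    unfold ap4Sum
    rw [Finset.sum_mul]
    exact Finset.sum_congr rfl (fun i _ => by rw [Finset.sum_mul])
  rw [h2] at h1
  exact h1.trans (h3.trans h4.le)

theorem ap4_glSize_eq (g : GL n K) :
    glSize v g = ap4Sum v (g : Matrix n n K) + ap4Sum v ((g⁻¹ : GL n K) : Matrix n n K) := by
  unfold glSize ap4Sum
  simp only [Finset.sum_add_distrib]

theorem glSize_nonneg (g : GL n K) : 0 ≤ glSize v g := by
  rw [ap4_glSize_eq]
  exact add_nonneg (ap4_sum_nonneg v _) (ap4_sum_nonneg v _)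

theorem glSize_inv (g : GL n K) : glSize v g⁻¹ = glSize v g := by
  rw [ap4_glSize_eq, ap4_glSize_eq, inv_inv, add_comm]

theorem glSize_mul (g h : GL n K) : glSize v (g * h) ≤ glSize v g * glSize v h := by
  rw [ap4_glSize_eq, ap4_glSize_eq, ap4_glSize_eq, mul_inv_rev, Units.val_mul, Units.val_mul]
  have h1 := ap4_sum_mul v (g : Matrix n n K) (h : Matrix n n K)
  have h2 := ap4_sum_mul v ((h⁻¹ : GL n K) : Matrix n n K) ((g⁻¹ : GL n K) : Matrix n n K)
  have a := ap4_sum_nonneg v (g : Matrix n n K)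
  have b := ap4_sum_nonneg v (h : Matrix n n K)
  have c := ap4_sum_nonneg v ((g⁻¹ : GL n K) : Matrix n n K)
  have d := ap4_sum_nonneg v ((h⁻¹ : GL n K) : Matrix n n K)
  nlinarith [mul_nonneg a d, mul_nonneg b c]

theorem le_glSize (g : GL n K) (i j : n) : v ((g : Matrix n n K) i j) ≤ glSize v g := by
  rw [ap4_glSize_eq]
  have h1 : v ((g : Matrix n n K) i j) ≤ ∑ j, v ((g : Matrix n n K) i j) :=
    Finset.single_le_sum (f := fun j => v ((g : Matrix n n K) i j))
      (fun _ _ => v.nonneg _) (Finset.mem_univ j)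
  have h2 : ∑ j, v ((g : Matrix n n K) i j) ≤ ap4Sum v (g : Matrix n n K) :=
    Finset.single_le_sum (f := fun i => ∑ j, v ((g : Matrix n n K) i j))
      (fun _ _ => Finset.sum_nonneg (fun _ _ => v.nonneg _)) (Finset.mem_univ i)
  have h3 := ap4_sum_nonneg v ((g⁻¹ : GL n K) : Matrix n n K)
  linarith

theorem ap4_sum_reindex (e : n ≃ m) (M : Matrix n n K) :
    ap4Sum v (Matrix.reindex e e M) = ap4Sum v M := by
  unfold ap4Sum
  rw [← Equiv.sum_comp e]
  refine Finset.sum_congr rfl (fun i _ => ?_)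
  rw [← Equiv.sum_comp e]
  refine Finset.sum_congr rfl (fun j _ => ?_)
  simp

/-- reindexing -/
theorem dim_GL_reindex (e : n ≃ m) {t : ℕ}
    (h : Dim (fun g g' : GL n K => glSize v (g⁻¹ * g')) t) :
    Dim (fun g g' : GL m K => glSize v (g⁻¹ * g')) t := by
  let φ : GL m K ≃* GL n K := Units.mapEquiv (Matrix.reindexAlgEquiv K K e.symm).toMulEquiv
  have h1 : ∀ g : GL m K, glSize v (φ g) = glSize v g := by
    intro g
    rw [ap4_glSize_eq, ap4_glSize_eq, ← map_inv]
    have h2 : ∀ g : GL m K, ((φ g : GL n K) : Matrix n n K) =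
        Matrix.reindex e.symm e.symm (g : Matrix m m K) := fun g => rfl
    rw [h2, h2, ap4_sum_reindex, ap4_sum_reindex]
  have h3 : ∀ a b : GL m K, glSize v ((φ a)⁻¹ * φ b) = glSize v (a⁻¹ * b) := by
    intro a b
    rw [← map_inv, ← map_mul, h1]
  refine dim_comap (fun g => φ g) (fun r => ⟨r, fun a b hab => ?_⟩)
    (fun D => ⟨D, fun a b hab => ?_⟩) h
  · beta_reduce at hab ⊢
    rw [h3]
    exact hab
  · beta_reduce at hab ⊢
    rw [h3] at hab
    exact hab

/-- the group of an empty index type -/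
theorem dim_GL_empty [IsEmpty n] : Dim (fun g g' : GL n K => glSize v (g⁻¹ * g')) 1 := by
  intro r
  refine ⟨0, fun _ => Set.univ, fun x => ⟨0, Set.mem_univ x⟩, ?_⟩
  intro _ x _ y _
  show glSize v (x⁻¹ * y) ≤ 0
  unfold glSize
  simp

end

end Pool.Agent.Helper61.Apc
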